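import Pool.Agent.X301.Par4

/-!
# The Parry measure of the golden mean shift is the frequency measure of a primitive random
# substitution

The random substitution is `a ↦ a` or `ab`, `b ↦ a` or `ab`, both with the probabilities `τ⁻¹` and
`τ⁻²`.  The image of any word of length `N` is the concatenation of `N` independent blocks `a`
(probability `τ⁻¹`) and `ab` (probability `τ⁻²`), and the Parry measure is the law of a stationary
concatenation of such blocks.

All definitions (`RandomSubstitution`, `matrix`, `Primitive`, `law`, `IsRealisation`, `occ`,
`cylinder`, `IsParry`, `IsFrequencyMeasure`) are in `Pool.Agent.X301.Par1`.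
-/

set_option autoImplicit false

namespace Pool.Agent.Results.MP_3f28ca_an.ParryFrequencyMeasure

open MeasureTheory Pool.Agent.X301.Par

/-- **Answer to Q1: yes.**  There are a primitive random substitution on `{a, b}` and a Borel
probability measure `μ` on the two-sided sequences such that `μ` is the Parry measure of the golden
mean shift (the stationary Markov measure with transition probabilities `τ⁻¹`, `τ⁻²`, `1`) and `μ`
is the frequency measure of the random substitution: it is shift-invariant, and for every letter
`α`, every nonempty word `v` and every realisation `W n` of the random words `ϑⁿ(α)`, the relative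
frequency of `v` in `W n` converges almost surely to `μ [v]`. -/
theorem result : ∃ θ : RandomSubstitution, θ.Primitive ∧
    ∃ μ : Measure (ℤ → Bool), IsParry μ ∧ IsFrequencyMeasure θ μ := by
  obtain ⟨μ, h1, h2⟩ := exists_parry
  refine ⟨rs, rs_primitive, μ, h1, h1.1, h2, ?_⟩
  intro α v hv Ω _ P _ W hW
  have h3 := freq_tendsto α P W hW v hv
  obtain ⟨x, u, rfl⟩ := List.exists_cons_of_ne_nil hv
  rw [h1.2 0 x u]
  exact h3

end Pool.Agent.Results.MP_3f28ca_an.ParryFrequencyMeasure
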